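import Pool.Agent.H12.QN.Stmts

/-! # Board `qnb` (MP_fa59e7_an), row PA -/

set_option autoImplicit false

namespace Pool.QN

namespace PAaux

open Finset MeasureTheory

theorem intg {E : Type} [NormedAddCommGroup E] {g : ℝ → E}
    (hg : ContinuousOn g (Set.Icc (-1) 1)) : Integrable g mu :=
  hg.integrableOn_Icc

theorem cs {f g : ℝ → ℝ} (hf : ContinuousOn f (Set.Icc (-1) 1))
    (hg : ContinuousOn g (Set.Icc (-1) 1)) :
    (∫ x, f x * g x ∂mu) ^ 2 ≤ (∫ x, f x ^ 2 ∂mu) * ∫ x, g x ^ 2 ∂mu := by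
  have h : ∀ s : ℝ, 0 ≤ (∫ x, f x ^ 2 ∂mu) * (s * s) + (-2 * ∫ x, f x * g x ∂mu) * s +
      ∫ x, g x ^ 2 ∂mu := by
    intro s
    have e : (∫ x, (s * f x - g x) ^ 2 ∂mu) =
        (∫ x, f x ^ 2 ∂mu) * (s * s) + (-2 * ∫ x, f x * g x ∂mu) * s + ∫ x, g x ^ 2 ∂mu := by
      have e1 : (fun x => (s * f x - g x) ^ 2) =
          fun x => ((s * s) * f x ^ 2 + (-2 * s) * (f x * g x)) + g x ^ 2 := by
        funext x
        ring
      rw [e1, integral_add, integral_add, integral_const_mul, integral_const_mul]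
      · ring
      · exact (intg (hf.pow 2)).const_mul _
      · exact (intg (hf.mul hg)).const_mul _
      · exact ((intg (hf.pow 2)).const_mul _).add ((intg (hf.mul hg)).const_mul _)
      · exact intg (hg.pow 2)
    rw [← e]
    exact integral_nonneg fun x => sq_nonneg _
  have h2 := discrim_le_zero h
  rw [discrim] at h2
  nlinarith

theorem norm_ee (t : ℝ) : ‖ee t‖ = 1 := by
  rw [ee, Complex.norm_exp_ofReal_mul_I]

theorem norm_uu (d r : ℤ) (φ : ℝ → ℝ) (k : ℕ) (x : ℝ) : ‖uu d r φ k x‖ = 1 := norm_ee _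

theorem cont_ee : Continuous ee := by
  unfold ee
  fun_prop

end PAaux

open PAaux Finset MeasureTheory in
theorem pa_thm (h1 : L2BStmt) (h2 : DUAStmt) : PAStmt := by
  intro c B ε hε
  obtain ⟨C2, hC2, hL2⟩ := h1 c B
  obtain ⟨C1, hC1, hD⟩ := h2 c B (2 * ε) (by positivity)
  refine ⟨Real.sqrt (C1 * C2 * (C2 + 1)), Real.sqrt_pos.2 (by positivity), ?_⟩
  intro φ φ1 φ2 hcur d r hd K hK a
  have hφ : ContinuousOn φ (Set.Icc (-1) 1) := fun x hx => (hcur.d1 x hx).continuousWithinAt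
  have hu : ∀ k, ContinuousOn (uu d r φ k) (Set.Icc (-1) 1) := by
    intro k
    have h3 : ContinuousOn (fun x : ℝ => ((r : ℝ) + d * k) * x + ((r : ℝ) + d * k) ^ 2 * φ x)
        (Set.Icc (-1) 1) :=
      (continuousOn_const.mul continuousOn_id).add (continuousOn_const.mul hφ)
    exact cont_ee.comp_continuousOn h3
  set F : ℝ → ℂ := FA d r K a φ with hF
  have hFc : ContinuousOn F (Set.Icc (-1) 1) := by
    rw [hF]
    unfold FA
    exact continuousOn_finsetSum _ fun k _ => continuousOn_const.mul (hu k)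
  have hNc : ContinuousOn (fun x => ‖F x‖) (Set.Icc (-1) 1) := hFc.norm
  set A : ℝ := ∑ k ∈ range K, ‖a k‖ ^ 2 with hA
  have hA0 : 0 ≤ A := Finset.sum_nonneg fun k _ => sq_nonneg _
  have hsum : ∀ x, ‖F x‖ ≤ ∑ k ∈ range K, ‖a k‖ := by
    intro x
    refine (norm_sum_le _ _).trans (Finset.sum_le_sum fun k _ => ?_)
    rw [norm_mul, norm_uu, mul_one]
  have hKA : ∀ x, ‖F x‖ ^ 2 ≤ K * A := by
    intro x
    have h3 : (∑ k ∈ range K, ‖a k‖) ^ 2 ≤ K * A := by
      have := sq_sum_le_card_mul_sum_sq (s := range K) (f := fun k => ‖a k‖)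
      rwa [card_range] at this
    exact (pow_le_pow_left₀ (norm_nonneg _) (hsum x) 2).trans h3
  set I : ℝ := ∫ x, ‖F x‖ ^ 4 ∂mu with hI
  have hI0 : 0 ≤ I := integral_nonneg fun x => by positivity
  set J2 : ℝ := ∫ x, ‖F x‖ ^ 2 ∂mu with hJ2
  set J3 : ℝ := ∫ x, ‖F x‖ ^ 3 ∂mu with hJ3
  set J6 : ℝ := ∫ x, ‖F x‖ ^ 6 ∂mu with hJ6
  have hJ30 : 0 ≤ J3 := integral_nonneg fun x => by positivity
  have hJ60 : 0 ≤ J6 := integral_nonneg fun x => by positivity
  -- the square mean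
  have e1 : J2 ≤ C2 * A := by
    set S : Finset ℤ := (range K).image (fun k : ℕ => r + d * (k : ℤ)) with hS
    set a' : ℤ → ℂ := fun n => a ((n - r) / d).toNat with ha'
    have hinj : ∀ k ∈ range K, ∀ l ∈ range K, r + d * (k : ℤ) = r + d * (l : ℤ) → k = l := by
      intro k _ l _ h
      have h3 : d * (k : ℤ) = d * (l : ℤ) := by linarith
      exact_mod_cast mul_left_cancel₀ hd h3
    have hak : ∀ k : ℕ, a' (r + d * (k : ℤ)) = a k := by
      intro k
      have h3 : (r + d * (k : ℤ) - r) / d = k := by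
        rw [add_sub_cancel_left, Int.mul_ediv_cancel_left _ hd]
      rw [ha']
      simp only [h3, Int.toNat_natCast]
    have h3 := hL2 φ φ1 φ2 hcur S a'
    have h4 : ∀ x, FF S a' φ x = F x := by
      intro x
      rw [FF, hS, Finset.sum_image hinj, hF, FA]
      refine Finset.sum_congr rfl fun k _ => ?_
      rw [hak, uu]
      push_cast
      rfl
    have h5 : ∑ n ∈ S, ‖a' n‖ ^ 2 = A := by
      rw [hS, Finset.sum_image hinj, hA]
      refine Finset.sum_congr rfl fun k _ => ?_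
      rw [hak]
    simp only [h4] at h3
    rw [h5] at h3
    exact h3
  -- Cauchy and Schwarz
  have e2 : J3 ^ 2 ≤ J2 * I := by
    have h3 := cs (f := fun x => ‖F x‖) (g := fun x => ‖F x‖ ^ 2) hNc (hNc.pow 2)
    have h4 : (∫ x, ‖F x‖ * ‖F x‖ ^ 2 ∂mu) = J3 := by
      rw [hJ3]
      refine integral_congr_ae (Filter.Eventually.of_forall fun x => ?_)
      show ‖F x‖ * ‖F x‖ ^ 2 = ‖F x‖ ^ 3
      ring
    have h5 : (∫ x, (‖F x‖ ^ 2) ^ 2 ∂mu) = I := by
      rw [hI]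
      refine integral_congr_ae (Filter.Eventually.of_forall fun x => ?_)
      show (‖F x‖ ^ 2) ^ 2 = ‖F x‖ ^ 4
      ring
    rw [h4, h5] at h3
    exact h3
  have e3 : J6 ≤ K * A * I := by
    rw [hJ6, hI, ← integral_const_mul]
    refine integral_mono (intg (hNc.pow 6)) ((intg (hNc.pow 4)).const_mul _) fun x => ?_
    show ‖F x‖ ^ 6 ≤ K * A * ‖F x‖ ^ 4
    have h3 : ‖F x‖ ^ 6 = ‖F x‖ ^ 2 * ‖F x‖ ^ 4 := by ring
    rw [h3]
    exact mul_le_mul_of_nonneg_right (hKA x) (by positivity)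
  -- the dual inequality
  set f : ℝ → ℂ := fun x => (starRingEnd ℂ) (F x) * ((‖F x‖ ^ 2 : ℝ) : ℂ) with hf
  have hfc : ContinuousOn f (Set.Icc (-1) 1) := by
    refine ContinuousOn.mul ?_ ?_
    · exact Complex.continuous_conj.comp_continuousOn hFc
    · exact Complex.continuous_ofReal.comp_continuousOn (hNc.pow 2)
  have hfn : ∀ x, ‖f x‖ = ‖F x‖ ^ 3 := by
    intro x
    rw [hf]
    simp only [norm_mul, RCLike.norm_conj, Complex.norm_real, Real.norm_eq_abs]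
    rw [abs_of_nonneg (by positivity)]
    ring
  have e4 := hD φ φ1 φ2 hcur d r hd K hK f (hfc.aestronglyMeasurable measurableSet_Icc)
    ⟨(∑ k ∈ range K, ‖a k‖) ^ 3, fun x => by
      rw [hfn]
      exact pow_le_pow_left₀ (norm_nonneg _) (hsum x) 3⟩
  set D : ℝ := ∑ k ∈ range K, ‖∫ x, f x * uu d r φ k x ∂mu‖ ^ 2 with hDdef
  have hD0 : 0 ≤ D := Finset.sum_nonneg fun k _ => sq_nonneg _
  have e5 : (∫ x, ‖f x‖ ∂mu) = J3 := by
    simp only [hfn]
    rfl
  have e6 : (∫ x, ‖f x‖ ^ 2 ∂mu) = J6 := by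
    rw [hJ6]
    refine integral_congr_ae (Filter.Eventually.of_forall fun x => ?_)
    show ‖f x‖ ^ 2 = ‖F x‖ ^ 6
    rw [hfn]
    ring
  rw [e5, e6] at e4
  have e7 : I ^ 2 ≤ A * D := by
    have h3 : (I : ℂ) = ∑ k ∈ range K, a k * ∫ x, f x * uu d r φ k x ∂mu := by
      have h4 : (I : ℂ) = ∫ x, ((‖F x‖ ^ 4 : ℝ) : ℂ) ∂mu := by
        rw [hI]
        exact integral_ofReal.symm
      have h5 : (∫ x, ((‖F x‖ ^ 4 : ℝ) : ℂ) ∂mu) =
          ∫ x, ∑ k ∈ range K, a k * (f x * uu d r φ k x) ∂mu := by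
        refine integral_congr_ae (Filter.Eventually.of_forall fun x => ?_)
        show ((‖F x‖ ^ 4 : ℝ) : ℂ) = ∑ k ∈ range K, a k * (f x * uu d r φ k x)
        have h6 : ∑ k ∈ range K, a k * (f x * uu d r φ k x) = F x * f x := by
          rw [hF, FA, Finset.sum_mul]
          refine Finset.sum_congr rfl fun k _ => ?_
          ring
        rw [h6, hf]
        show ((‖F x‖ ^ 4 : ℝ) : ℂ) = F x * ((starRingEnd ℂ) (F x) * ((‖F x‖ ^ 2 : ℝ) : ℂ))
        rw [← mul_assoc, Complex.mul_conj, Complex.normSq_eq_norm_sq, ← Complex.ofReal_mul]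
        congr 1
        ring
      rw [h4, h5, integral_finsetSum]
      · refine Finset.sum_congr rfl fun k _ => ?_
        rw [integral_const_mul]
      · intro k _
        exact (intg (hfc.mul (hu k))).const_mul _
    have h4 : I ≤ ∑ k ∈ range K, ‖a k‖ * ‖∫ x, f x * uu d r φ k x ∂mu‖ := by
      have h5 : ‖(I : ℂ)‖ = I := by
        rw [Complex.norm_real, Real.norm_eq_abs, abs_of_nonneg hI0]
      rw [← h5, h3]
      refine (norm_sum_le _ _).trans (Finset.sum_le_sum fun k _ => ?_)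
      rw [norm_mul]
    have h5 := Finset.sum_mul_sq_le_sq_mul_sq (range K) (fun k => ‖a k‖)
      (fun k => ‖∫ x, f x * uu d r φ k x ∂mu‖)
    exact (pow_le_pow_left₀ hI0 h4 2).trans h5
  -- the end
  have hK0 : (0 : ℝ) ≤ K := Nat.cast_nonneg K
  have hKpos : (0 : ℝ) < K := by exact_mod_cast hK
  set R : ℝ := (K : ℝ) ^ (2 * ε) with hR
  have hR0 : 0 ≤ R := Real.rpow_nonneg hK0 _
  have e8 : J3 ^ 2 ≤ C2 * A * I := e2.trans (mul_le_mul_of_nonneg_right e1 hI0)
  have e9 : I ^ 4 ≤ (C1 * C2 * (C2 + 1)) * (K * R) * A ^ 4 * I ^ 2 := by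
    have h3 : I ^ 4 ≤ A ^ 2 * D ^ 2 := by
      have h4 := pow_le_pow_left₀ (sq_nonneg I) e7 2
      calc I ^ 4 = (I ^ 2) ^ 2 := by ring
        _ ≤ (A * D) ^ 2 := h4
        _ = A ^ 2 * D ^ 2 := by ring
    have h5 : D ^ 2 ≤ C1 * R * (C2 * A * I) * (K * (C2 * A * I) + K * A * I) := by
      refine e4.trans ?_
      have h6 : K * J3 ^ 2 + J6 ≤ K * (C2 * A * I) + K * A * I :=
        add_le_add (mul_le_mul_of_nonneg_left e8 hK0) e3
      have h7 : 0 ≤ K * J3 ^ 2 + J6 := by positivity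
      refine mul_le_mul ?_ h6 h7 (by positivity)
      exact mul_le_mul_of_nonneg_left e8 (by positivity)
    calc I ^ 4 ≤ A ^ 2 * D ^ 2 := h3
      _ ≤ A ^ 2 * (C1 * R * (C2 * A * I) * (K * (C2 * A * I) + K * A * I)) :=
        mul_le_mul_of_nonneg_left h5 (by positivity)
      _ = (C1 * C2 * (C2 + 1)) * (K * R) * A ^ 4 * I ^ 2 := by ring
  rcases hI0.eq_or_lt with h0 | h0
  · rw [← h0]
    positivity
  · have e10 : I ^ 2 ≤ (C1 * C2 * (C2 + 1)) * (K * R) * A ^ 4 := by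
      have h3 : 0 < I ^ 2 := by positivity
      have h4 : I ^ 2 * I ^ 2 ≤ ((C1 * C2 * (C2 + 1)) * (K * R) * A ^ 4) * I ^ 2 := by
        calc I ^ 2 * I ^ 2 = I ^ 4 := by ring
          _ ≤ _ := e9
      exact le_of_mul_le_mul_right h4 h3
    have e11 : ((K : ℝ) ^ (1 / 2 + ε)) ^ 2 = K * R := by
      rw [hR, ← Real.rpow_natCast, ← Real.rpow_mul hK0]
      have h3 : (1 / 2 + ε) * ((2 : ℕ) : ℝ) = 1 + 2 * ε := by
        push_cast
        ring
      rw [h3, Real.rpow_add hKpos, Real.rpow_one]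
    have h6 : I ^ 2 ≤ (Real.sqrt (C1 * C2 * (C2 + 1)) * (K : ℝ) ^ (1 / 2 + ε) * A ^ 2) ^ 2 := by
      rw [mul_pow, mul_pow, Real.sq_sqrt (by positivity), e11]
      calc I ^ 2 ≤ (C1 * C2 * (C2 + 1)) * (K * R) * A ^ 4 := e10
        _ = (C1 * C2 * (C2 + 1)) * (K * R) * (A ^ 2) ^ 2 := by ring
    exact le_of_sq_le_sq h6 (by positivity)

end Pool.QN
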